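import Mathlib

open Finset

namespace Pool.Agent.P.MP_02b125_co

/-- A balanced upper set of the cube is matched with its complement along inclusions. -/
theorem exists_matching {α : Type} [Fintype α] [DecidableEq α] (H : Finset (Finset α))
    (hH : IsUpperSet (H : Set (Finset α))) (hc : 2 * H.card = 2 ^ Fintype.card α) :
    ∃ ψ : Finset α → Finset α, Set.BijOn ψ (Hᶜ : Finset (Finset α)) H ∧ ∀ x ∈ Hᶜ, x ⊂ ψ x := by
  classical
  have hpos : 0 < H.card := by
    have : 0 < 2 ^ Fintype.card α := by positivity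
    omega
  have hcc : Hᶜ.card = H.card := by
    rw [card_compl, Fintype.card_finset]; omega
  let t : ↥(Hᶜ) → Finset (Finset α) := fun x => H.filter (fun y => x.1 ⊆ y)
  have hall : ∀ s : Finset ↥(Hᶜ), s.card ≤ (s.biUnion t).card := by
    intro s
    let U : Finset (Finset α) := univ.filter (fun y => ∃ x ∈ s, x.1 ⊆ y)
    have hU : IsUpperSet (U : Set (Finset α)) := by
      intro y y' hyy' hy
      simp only [U, coe_filter, mem_univ, true_and, Set.mem_ofPred_eq] at hy ⊢
      obtain ⟨x, hx, h⟩ := hy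
      exact ⟨x, hx, h.trans hyy'⟩
    have h1 := hU.le_card_inter_finset hH
    have h2 : s.biUnion t = U ∩ H := by
      ext y
      simp only [mem_biUnion, t, U, mem_filter, mem_inter, mem_univ, true_and]
      constructor
      · rintro ⟨x, hx, hy, h⟩
        exact ⟨⟨x, hx, h⟩, hy⟩
      · rintro ⟨⟨x, hx, h⟩, hy⟩
        exact ⟨x, hx, hy, h⟩
    have h3 : s.card ≤ (U \ H).card := by
      rw [← card_map (Function.Embedding.subtype _)]
      apply card_le_card
      intro y hy
      obtain ⟨x, hx, rfl⟩ := mem_map.1 hy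
      simp only [U, mem_sdiff, mem_filter, mem_univ, true_and, Function.Embedding.coe_subtype]
      exact ⟨⟨x, hx, subset_rfl⟩, mem_compl.1 x.2⟩
    have h4 : (U \ H).card + (U ∩ H).card = U.card := card_sdiff_add_card_inter U H
    rw [← hc] at h1
    have h5 : U.card ≤ 2 * (U ∩ H).card := by
      have : U.card * H.card ≤ (2 * (U ∩ H).card) * H.card := by nlinarith
      exact Nat.le_of_mul_le_mul_right this hpos
    rw [h2]; omega
  obtain ⟨f, hf, hft⟩ := (all_card_le_biUnion_card_iff_exists_injective t).1 hall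
  let ψ : Finset α → Finset α := fun x => if h : x ∈ Hᶜ then f ⟨x, h⟩ else x
  have hmaps : Set.MapsTo ψ (Hᶜ : Finset (Finset α)) H := by
    intro x hx
    have hx' : x ∈ Hᶜ := hx
    simp only [ψ, dif_pos hx']
    exact (mem_filter.1 (hft ⟨x, hx'⟩)).1
  have hinj : Set.InjOn ψ (Hᶜ : Finset (Finset α)) := by
    intro x hx y hy h
    have hx' : x ∈ Hᶜ := hx
    have hy' : y ∈ Hᶜ := hy
    simp only [ψ, dif_pos hx', dif_pos hy'] at h
    exact congrArg Subtype.val (hf h)
  refine ⟨ψ, ⟨hmaps, hinj, surjOn_of_injOn_of_card_le ψ hmaps hinj hcc.ge⟩, fun x hx => ?_⟩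
  have h1 := mem_filter.1 (hft ⟨x, hx⟩)
  have h2 : ψ x = f ⟨x, hx⟩ := dif_pos hx
  rw [h2]
  refine Finset.ssubset_iff_subset_ne.2 ⟨h1.2, fun h => mem_compl.1 hx ?_⟩
  rw [h]; exact h1.1

/-- The upper half of the cube of odd dimension. -/
def upper (k : ℕ) : Finset (Finset (Fin (2 * k + 1))) := univ.filter (fun y => k < y.card)

theorem upper_isUpperSet (k : ℕ) : IsUpperSet (upper k : Set (Finset (Fin (2 * k + 1)))) := by
  intro y y' h hy
  simp only [upper, coe_filter, mem_univ, true_and, Set.mem_ofPred_eq] at hy ⊢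
  exact hy.trans_le (card_le_card h)

theorem image_compl_upper (k : ℕ) : (upper k)ᶜ.image compl = upper k := by
  ext y
  simp only [upper, mem_image, mem_compl, mem_filter, mem_univ, true_and, not_lt]
  constructor
  · rintro ⟨x, hx, rfl⟩
    rw [card_compl, Fintype.card_fin]; omega
  · intro hy
    refine ⟨yᶜ, ?_, compl_compl y⟩
    rw [card_compl, Fintype.card_fin]; omega

theorem card_compl_upper (k : ℕ) : (upper k)ᶜ.card = (upper k).card := by
  conv_rhs => rw [← image_compl_upper k]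
  rw [card_image_of_injective _ compl_injective]

theorem two_mul_card_upper (k : ℕ) : 2 * (upper k).card = 2 ^ Fintype.card (Fin (2 * k + 1)) := by
  have h1 := card_compl_upper k
  have h2 := card_add_card_compl (upper k)
  rw [Fintype.card_finset] at h2
  omega

theorem card_upper (k : ℕ) : (upper k).card = 4 ^ k := by
  have h := two_mul_card_upper k
  rw [Fintype.card_fin, pow_succ, pow_mul] at h
  norm_num at h
  omega

theorem telescope (m t : ℕ) (ht : t ≤ m) :
    ∑ i ∈ range (t + 1), (m.choose i : ℝ) * ((m : ℝ) - 2 * i) = (m.choose (t + 1) : ℝ) * (t + 1) := by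
  induction t with
  | zero => simp
  | succ t ih =>
    rw [sum_range_succ, ih (by omega)]
    have h := Nat.choose_succ_right_eq m (t + 1)
    have h' : (m.choose (t + 1 + 1) : ℝ) * ((t + 1 : ℕ) + 1) =
        (m.choose (t + 1) : ℝ) * ((m : ℝ) - (t + 1 : ℕ)) := by
      rw [← Nat.cast_sub ht]
      exact_mod_cast h
    rw [h']
    push_cast
    ring

/-- Total length of a perfect matching between the two halves. -/
theorem length_upper (k : ℕ) :
    ∑ y ∈ upper k, (y.card : ℝ) - ∑ x ∈ (upper k)ᶜ, (x.card : ℝ) =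
      (2 * k + 1) * (k.centralBinom : ℝ) := by
  have h1 : ∑ y ∈ upper k, (y.card : ℝ) = ∑ x ∈ (upper k)ᶜ, (((2 * k + 1 : ℕ) : ℝ) - x.card) := by
    conv_lhs => rw [← image_compl_upper k]
    rw [sum_image (fun x _ y _ h => compl_injective h)]
    refine sum_congr rfl fun x _ => ?_
    have hx : x.card ≤ 2 * k + 1 := by simpa using card_le_univ x
    rw [card_compl, Fintype.card_fin, Nat.cast_sub hx]
  rw [h1, ← sum_sub_distrib]
  have h2 : ∑ x ∈ (upper k)ᶜ, (((2 * k + 1 : ℕ) : ℝ) - x.card - x.card) =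
      ∑ x ∈ (univ : Finset (Fin (2 * k + 1))).powerset,
        (fun i : ℕ => if i < k + 1 then (((2 * k + 1 : ℕ) : ℝ) - 2 * i) else 0) x.card := by
    rw [powerset_univ, ← sum_filter]
    refine sum_congr ?_ fun x _ => by ring
    ext x
    simp [upper]
  rw [h2, sum_powerset_apply_card
    (fun i : ℕ => if i < k + 1 then (((2 * k + 1 : ℕ) : ℝ) - 2 * i) else 0), card_univ,
    Fintype.card_fin]
  have h3 : ∑ i ∈ range (2 * k + 1 + 1), (2 * k + 1).choose i •
      (fun i : ℕ => if i < k + 1 then (((2 * k + 1 : ℕ) : ℝ) - 2 * i) else 0) i =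
      ∑ i ∈ range (k + 1), ((2 * k + 1).choose i : ℝ) * (((2 * k + 1 : ℕ) : ℝ) - 2 * i) := by
    symm
    have hsub : range (k + 1) ⊆ range (2 * k + 1 + 1) := range_subset_range.2 (by omega)
    rw [← sum_subset hsub]
    · refine sum_congr rfl fun i hi => ?_
      simp [mem_range.1 hi]
    · intro i _ hi
      have : ¬ i < k + 1 := fun h => hi (mem_range.2 h)
      simp [this]
  rw [h3, telescope _ _ (by omega)]
  have h4 := Nat.add_one_mul_choose_eq (2 * k) k
  rw [Nat.centralBinom_eq_two_mul_choose]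
  exact_mod_cast h4.symm

theorem central_bounds (k : ℕ) :
    ((k : ℝ) + 1) * (4 ^ k) ^ 2 ≤ ((2 * k + 1) * (k.centralBinom : ℝ)) ^ 2 ∧
    ((2 * k + 1) * (k.centralBinom : ℝ)) ^ 2 ≤ (2 * k + 1) * (4 ^ k) ^ 2 := by
  induction k with
  | zero => simp
  | succ k ih =>
    obtain ⟨ih1, ih2⟩ := ih
    have h : ((k : ℝ) + 1) * ((k + 1).centralBinom : ℝ) = 2 * (2 * k + 1) * (k.centralBinom : ℝ) := by
      exact_mod_cast Nat.succ_mul_centralBinom_succ k
    have hk : (0 : ℝ) < (k : ℝ) + 1 := by positivity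
    have hk0 : (0 : ℝ) ≤ k := by positivity
    set C := (k.centralBinom : ℝ)
    set C' := ((k + 1).centralBinom : ℝ)
    set P : ℝ := (4 ^ k) ^ 2 with hP
    have hP0 : 0 < P := by positivity
    have hP' : ((4 : ℝ) ^ (k + 1)) ^ 2 = 16 * P := by rw [hP]; ring
    set Q : ℝ := ((2 * k + 1) * C) ^ 2 with hQ
    have hC' : ((k : ℝ) + 1) ^ 2 * C' ^ 2 = 4 * Q := by
      rw [← mul_pow, h, hQ]; ring
    push_cast
    rw [hP']
    have hk2 : (0 : ℝ) < ((k : ℝ) + 1) ^ 2 := by positivity
    constructor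
    · refine le_of_mul_le_mul_left ?_ hk2
      have e : ((k : ℝ) + 1) ^ 2 * ((2 * (k + 1) + 1) * C') ^ 2 = (2 * k + 3) ^ 2 * (4 * Q) := by
        rw [← hC']; ring
      rw [e]
      have : (2 * (k : ℝ) + 3) ^ 2 * (4 * (((k : ℝ) + 1) * P)) ≤ (2 * k + 3) ^ 2 * (4 * Q) := by
        gcongr
      refine le_trans ?_ this
      have : 0 ≤ ((k : ℝ) + 1) * P := by positivity
      nlinarith
    · refine le_of_mul_le_mul_left ?_ hk2
      have e : ((k : ℝ) + 1) ^ 2 * ((2 * (k + 1) + 1) * C') ^ 2 = (2 * k + 3) ^ 2 * (4 * Q) := by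
        rw [← hC']; ring
      rw [e]
      have : (2 * (k : ℝ) + 3) ^ 2 * (4 * Q) ≤ (2 * k + 3) ^ 2 * (4 * ((2 * (k : ℝ) + 1) * P)) := by
        gcongr
      refine le_trans this ?_
      have : 0 ≤ (2 * (k : ℝ) + 3) * P := by positivity
      nlinarith

end Pool.Agent.P.MP_02b125_co
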